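import Pool.Agent.Run7.h429.TP.Main

/-!
# Tree Prikry forcing adds no fresh subsets of `κ⁺`
-/

open Run7.h429.TP

universe u

/-- Let `U` be any non-principal `κ`-complete ultrafilter over the measurable cardinal `κ`, and
let `δ` be an ordinal of cofinality greater than `κ`, for example `δ = κ⁺`. If a condition of the
tree Prikry forcing with `U` forces that all the proper initial segments of the set `A ∩ δ` of
ordinals belong to the ground model, then it forces that `A ∩ δ` belongs to the ground model. -/
theorem Pool.Agent.Results.MP_becacd_lc.NoFreshSubsets.result {κ : Ordinal.{u}}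
    {U : Ultrafilter Ordinal.{u}} (hU : IsMeasure κ U) (δ : Ordinal.{u})
    (hδ : δ = (Order.succ κ.card).ord ∨ κ.card < δ.cof)
    (A : Ordinal.{u} → Set (TreeCond κ U)) (hA : ∀ β, IsSentence (A β)) (p : TreeCond κ U)
    (hp : ∀ α < δ, ForcesGround p A α) : ForcesGround p A δ := by
  refine main hU ?_ hA hp
  rcases hδ with rfl | h
  · have hreg : (Order.succ κ.card).IsRegular := by
      refine Cardinal.isRegular_succ ?_
      rw [Ordinal.aleph0_le_card]
      exact hU.omega_lt.le
    rw [hreg.cof_ord]
    exact Order.lt_succ _
  · exact h
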